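import Mathlib

/-!
# Definitions for problem MP_0f8365_gt (Grothendieck spaces in the sense of Arhangel'skii)
-/

set_option autoImplicit false

open Set Filter Topology

namespace Pool.Agent.Work.MP_0f8365_gt

universe u

/-- `A` is countably compact in `Z`: every infinite subset of `A` has an accumulation point in
`Z` (the accumulation point need not lie in `A`). -/
def CountablyCompactIn {Z : Type u} [TopologicalSpace Z] (A : Set Z) : Prop :=
  ∀ B : Set Z, B ⊆ A → B.Infinite → ∃ z : Z, AccPt z (𝓟 B)

/-- `Z` is a g-space: every subset that is countably compact in `Z` has compact closure. -/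
def IsGSpace (Z : Type u) [TopologicalSpace Z] : Prop :=
  ∀ A : Set Z, CountablyCompactIn A → IsCompact (closure A)

/-- The space `C_p(X)`: all continuous functions `X → ℝ`. -/
def Cp (X : Type u) [TopologicalSpace X] : Type u := {f : X → ℝ // Continuous f}

/-- The topology of `C_p(X)`: pointwise convergence, the subspace topology from `X → ℝ`. -/
instance (X : Type u) [TopologicalSpace X] : TopologicalSpace (Cp X) :=
  instTopologicalSpaceSubtype

/-- `X` is a Grothendieck space (in the sense of Arhangel'skii): every subspace of `C_p(X)` is a
g-space. -/
def IsGrothendieckSpace (X : Type u) [TopologicalSpace X] : Prop :=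
  ∀ S : Set (Cp X), IsGSpace S

end Pool.Agent.Work.MP_0f8365_gt
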