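import Pool.Agent.Work.MP_0f8365_gt.Defs

set_option autoImplicit false

open Set Filter Topology

namespace Pool.Agent.Work.MP_0f8365_gt

universe u v

/-! ### Basic facts on `Cp` -/

instance (X : Type u) [TopologicalSpace X] : T3Space (Cp X) := by
  unfold Cp
  infer_instance

theorem continuous_cp_iff {X : Type u} [TopologicalSpace X] {T : Type v} [TopologicalSpace T]
    {φ : T → Cp X} : Continuous φ ↔ ∀ x, Continuous (fun t => (φ t).1 x) := by
  have h1 : Continuous φ ↔ Continuous (fun t => (φ t).1) := by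
    exact Topology.IsInducing.subtypeVal.continuous_iff
  rw [h1, continuous_pi_iff]

theorem continuous_eval {X : Type u} [TopologicalSpace X] (x : X) :
    Continuous (fun f : Cp X => f.1 x) :=
  (continuous_cp_iff (φ := (id : Cp X → Cp X))).1 continuous_id x

/-! ### Accumulation points -/

theorem accPt_principal_iff {Z : Type u} [TopologicalSpace Z] {z : Z} {B : Set Z} :
    AccPt z (𝓟 B) ↔ ∀ U ∈ 𝓝 z, ∃ y ∈ U ∩ B, y ≠ z := accPt_iff_nhds

/-- In a `T1` space every neighbourhood of an accumulation point of `B` contains infinitely many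
points of `B`. -/
theorem infinite_of_accPt {Z : Type u} [TopologicalSpace Z] [T1Space Z] {z : Z} {B : Set Z}
    (h : AccPt z (𝓟 B)) {U : Set Z} (hU : U ∈ 𝓝 z) : (U ∩ B).Infinite := by
  intro hfin
  have hfin' : ((U ∩ B) \ {z}).Finite := hfin.subset sdiff_subset
  have hV : ((U ∩ B) \ {z})ᶜ ∈ 𝓝 z := by
    apply hfin'.isClosed.isOpen_compl.mem_nhds
    simp
  obtain ⟨y, ⟨hy1, hy2⟩, hne⟩ := accPt_principal_iff.1 h _ (inter_mem hU hV)
  exact hy1.2 ⟨⟨hy1.1, hy2⟩, hne⟩

/-- A continuous image of a countably compact subset is countably compact. -/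
theorem CountablyCompactIn.image {Z : Type u} {W : Type v} [TopologicalSpace Z] [TopologicalSpace W]
    [T1Space Z] {A : Set Z} (hA : CountablyCompactIn A) {φ : Z → W} (hφ : Continuous φ) :
    CountablyCompactIn (φ '' A) := by
  intro B hB hinf
  obtain ⟨B', hB'A, hB'⟩ := exists_subset_bijOn (A ∩ φ ⁻¹' B) φ
  have himg : φ '' (A ∩ φ ⁻¹' B) = B := by
    ext w
    constructor
    · rintro ⟨a, ⟨_, ha⟩, rfl⟩
      exact ha
    · intro hw
      obtain ⟨a, ha, rfl⟩ := hB hw
      exact ⟨a, ⟨ha, hw⟩, rfl⟩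
  rw [himg] at hB'
  have hinf' : B'.Infinite := by
    intro hf
    exact hinf (hB'.image_eq ▸ hf.image φ)
  obtain ⟨z, hz⟩ := hA B' (hB'A.trans inter_subset_left) hinf'
  refine ⟨φ z, accPt_principal_iff.2 ?_⟩
  intro U hU
  have hU' : φ ⁻¹' U ∈ 𝓝 z := hφ.continuousAt hU
  have hi := infinite_of_accPt hz hU'
  -- choose two points; at most one of them is mapped to `φ z`
  have hi2 : (φ '' (φ ⁻¹' U ∩ B')).Infinite := hi.image (hB'.injOn.mono inter_subset_right)
  obtain ⟨w, hw, hne⟩ := (hi2.sdiff (finite_singleton (φ z))).nonempty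
  obtain ⟨b, ⟨hbU, hbB⟩, rfl⟩ := hw
  exact ⟨φ b, ⟨hbU, hB'.mapsTo hbB⟩, hne⟩

theorem CountablyCompactIn.mono {Z : Type u} [TopologicalSpace Z] {A B : Set Z}
    (hA : CountablyCompactIn A) (h : B ⊆ A) : CountablyCompactIn B :=
  fun C hC hinf => hA C (hC.trans h) hinf

/-- In a Hausdorff space all of whose subspaces are g-spaces, each point `p` of the closure of a
countably compact set `A` with `p ∉ A` is the limit of an infinite subset of `A`. -/
theorem exists_convergent {W : Type u} [TopologicalSpace W] [T2Space W]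
    (hW : ∀ S : Set W, IsGSpace S) {A : Set W} (hA : CountablyCompactIn A) {p : W}
    (hp : p ∈ closure A) (hpA : p ∉ A) :
    ∃ B ⊆ A, B.Infinite ∧ ∀ U ∈ 𝓝 p, (B \ U).Finite := by
  by_contra hcon
  push Not at hcon
  have hcc : CountablyCompactIn (Subtype.val ⁻¹' A : Set ({p}ᶜ : Set W)) := by
    intro B' hB' hinf
    have hBA : Subtype.val '' B' ⊆ A := by
      rintro _ ⟨b, hb, rfl⟩
      exact hB' hb
    have hBinf : (Subtype.val '' B').Infinite := hinf.image Subtype.val_injective.injOn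
    obtain ⟨U, hU, hUinf⟩ := hcon _ hBA hBinf
    obtain ⟨z, hz⟩ := hA _ (sdiff_subset.trans hBA) hUinf
    have hzp : z ∈ ({p}ᶜ : Set W) := by
      rintro rfl
      obtain ⟨y, ⟨hy1, hy2⟩, _⟩ := accPt_principal_iff.1 hz U hU
      exact hy2.2 hy1
    refine ⟨⟨z, hzp⟩, accPt_principal_iff.2 ?_⟩
    intro V hV
    rw [nhds_subtype_eq_comap, mem_comap] at hV
    obtain ⟨V', hV', hsub⟩ := hV
    obtain ⟨y, ⟨hy1, hy2⟩, hne⟩ := accPt_principal_iff.1 hz V' hV'
    obtain ⟨⟨b, hb, rfl⟩, _⟩ := hy2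
    refine ⟨b, ⟨hsub hy1, hb⟩, ?_⟩
    intro h
    exact hne (congrArg Subtype.val h)
  have hK := (hW _ _ hcc).image continuous_subtype_val
  have hsub : A ⊆ Subtype.val '' closure (Subtype.val ⁻¹' A : Set ({p}ᶜ : Set W)) := by
    intro a ha
    have hap : a ≠ p := fun h => hpA (h ▸ ha)
    exact ⟨⟨a, hap⟩, subset_closure ha, rfl⟩
  have := closure_minimal hsub hK.isClosed hp
  obtain ⟨q, _, hq⟩ := this
  exact q.2 hq

/-! ### The distance-to-a-point map -/

/-- The weights `2⁻ⁿ`-series `∑ 2⁻ⁿ min(1, |aₙ|)`. -/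
noncomputable def wsum (a : ℕ → ℝ) : ℝ := ∑' n, (1 / 2 : ℝ) ^ n * min 1 |a n|

theorem wsum_term_nonneg (a : ℕ → ℝ) (n : ℕ) : 0 ≤ (1 / 2 : ℝ) ^ n * min 1 |a n| := by positivity

theorem wsum_term_le (a : ℕ → ℝ) (n : ℕ) : (1 / 2 : ℝ) ^ n * min 1 |a n| ≤ (1 / 2 : ℝ) ^ n :=
  mul_le_of_le_one_right (by positivity) (min_le_left _ _)

theorem wsum_summable (a : ℕ → ℝ) : Summable fun n => (1 / 2 : ℝ) ^ n * min 1 |a n| :=
  Summable.of_nonneg_of_le (wsum_term_nonneg a) (wsum_term_le a) summable_geometric_two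

theorem wsum_eq_zero {a : ℕ → ℝ} (h : wsum a = 0) (n : ℕ) : a n = 0 := by
  have h0 : HasSum (fun n => (1 / 2 : ℝ) ^ n * min 1 |a n|) 0 := by
    have := (wsum_summable a).hasSum
    rwa [show (∑' n, (1 / 2 : ℝ) ^ n * min 1 |a n|) = 0 from h] at this
  have h1 := (hasSum_zero_iff_of_nonneg (wsum_term_nonneg a)).1 h0
  have h2 : (1 / 2 : ℝ) ^ n * min 1 |a n| = 0 := congrFun h1 n
  rcases mul_eq_zero.1 h2 with h3 | h3
  · exact absurd h3 (by positivity)
  · by_contra hne
    have : 0 < min 1 |a n| := lt_min one_pos (abs_pos.2 hne)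
    linarith

theorem wsum_zero : wsum (fun _ => 0) = 0 := by simp [wsum]

theorem continuous_wsum {T : Type v} [TopologicalSpace T] {a : T → ℕ → ℝ}
    (ha : ∀ n, Continuous fun t => a t n) : Continuous fun t => wsum (a t) := by
  unfold wsum
  refine continuous_tsum (u := fun n => (1 / 2 : ℝ) ^ n) ?_ summable_geometric_two ?_
  · intro n
    exact continuous_const.mul (continuous_const.min (ha n).abs)
  · intro n t
    rw [Real.norm_of_nonneg (wsum_term_nonneg _ _)]
    exact wsum_term_le _ _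

/-! ### The key lemma -/

section Key

variable {X : Type u} [TopologicalSpace X] {T : Type v} [TopologicalSpace T]

/-- The `n`-th coordinate map `T → C_p(X)`. -/
def coordMap (ρ : T → ℕ → X → ℝ) (hρX : ∀ t n, Continuous (ρ t n)) (n : ℕ) (t : T) : Cp X :=
  ⟨ρ t n, hρX t n⟩

theorem continuous_coordMap {ρ : T → ℕ → X → ℝ} (hρX : ∀ t n, Continuous (ρ t n))
    (hρ : Continuous ρ) (n : ℕ) : Continuous (coordMap ρ hρX n) := by
  rw [continuous_cp_iff]
  intro x
  exact (continuous_apply x).comp ((continuous_apply n).comp hρ)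

/-- The compact product containing the closure of the image of a countably compact set. -/
theorem exists_compact_superset (hX : IsGrothendieckSpace X) [T1Space T] {ρ : T → ℕ → X → ℝ}
    (hρX : ∀ t n, Continuous (ρ t n)) (hρ : Continuous ρ) {B : Set T}
    (hB : CountablyCompactIn B) :
    ∃ Q : Set (ℕ → X → ℝ), IsCompact Q ∧ ρ '' B ⊆ Q ∧ ∀ h ∈ Q, ∀ n, Continuous (h n) := by
  have hK : ∀ n, IsCompact (closure (coordMap ρ hρX n '' B)) := by
    intro n
    have h1 : CountablyCompactIn (coordMap ρ hρX n '' B) :=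
      hB.image (continuous_coordMap hρX hρ n)
    -- `C_p(X)` itself is a g-space, as the subspace `univ` is one
    have h2 : CountablyCompactIn
        (Subtype.val ⁻¹' (coordMap ρ hρX n '' B) : Set (univ : Set (Cp X))) := by
      intro E hE hinf
      obtain ⟨z, hz⟩ := h1 (Subtype.val '' E) (by rintro _ ⟨e, he, rfl⟩; exact hE he)
        (hinf.image Subtype.val_injective.injOn)
      refine ⟨⟨z, mem_univ z⟩, accPt_principal_iff.2 ?_⟩
      intro V hV
      rw [mem_nhds_subtype] at hV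
      obtain ⟨V', hV', hsub⟩ := hV
      obtain ⟨y, ⟨hy1, hy2⟩, hne⟩ := accPt_principal_iff.1 hz V' hV'
      obtain ⟨b, hb, rfl⟩ := hy2
      refine ⟨b, ⟨hsub hy1, hb⟩, ?_⟩
      intro h
      exact hne (congrArg Subtype.val h)
    have h3 := (hX univ _ h2).image continuous_subtype_val
    refine h3.of_isClosed_subset isClosed_closure ?_
    refine closure_minimal ?_ h3.isClosed
    intro w hw
    exact ⟨⟨w, mem_univ w⟩, subset_closure hw, rfl⟩
  refine ⟨Set.pi univ fun n => Subtype.val '' closure (coordMap ρ hρX n '' B), ?_, ?_, ?_⟩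
  · exact isCompact_univ_pi fun n => (hK n).image continuous_subtype_val
  · rintro _ ⟨b, hb, rfl⟩ n _
    exact ⟨coordMap ρ hρX n b, subset_closure ⟨b, hb, rfl⟩, rfl⟩
  · intro h hh n
    obtain ⟨f, _, hf⟩ := hh n (mem_univ n)
    rw [← hf]
    exact f.2

theorem exists_preimage (hX : IsGrothendieckSpace X) [T1Space T] {ρ : T → ℕ → X → ℝ}
    (hρX : ∀ t n, Continuous (ρ t n)) (hρ : Continuous ρ) {B : Set T}
    (hB : CountablyCompactIn B) {h : ℕ → X → ℝ} (hh : h ∈ closure (ρ '' B)) :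
    ∃ c ∈ closure B, ρ c = h := by
  by_cases hmem : h ∈ ρ '' B
  · obtain ⟨b, hb, rfl⟩ := hmem
    exact ⟨b, subset_closure hb, rfl⟩
  obtain ⟨Q, hQ, hBQ, hQc⟩ := exists_compact_superset hX hρX hρ hB
  have hhc : ∀ n, Continuous (h n) := hQc h (closure_minimal hBQ hQ.isClosed hh)
  -- the distance-to-`h` map
  let Φ : T → Cp X := fun t => ⟨fun x => wsum fun n => ρ t n x - h n x,
    continuous_wsum fun n => (hρX t n).sub (hhc n)⟩
  have hΦ : Continuous Φ := by
    rw [continuous_cp_iff]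
    intro x
    refine continuous_wsum fun n => ?_
    exact ((continuous_apply x).comp ((continuous_apply n).comp hρ)).sub continuous_const
  let o : Cp X := ⟨fun _ => 0, continuous_const⟩
  have hΦ0 : ∀ t, Φ t = o → ρ t = h := by
    intro t ht
    funext n x
    have h1 : wsum (fun n => ρ t n x - h n x) = 0 := congrFun (congrArg Subtype.val ht) x
    have := wsum_eq_zero h1 n
    linarith
  have ho : o ∉ Φ '' B := by
    rintro ⟨b, hb, hb0⟩
    exact hmem ⟨b, hb, hΦ0 b hb0⟩
  have ho' : o ∈ closure (Φ '' B) := by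
    -- extend `Φ` to the whole product
    let Ψ : (ℕ → X → ℝ) → (X → ℝ) := fun g x => wsum fun n => g n x - h n x
    have hΨ : Continuous Ψ := by
      rw [continuous_pi_iff]
      intro x
      refine continuous_wsum fun n => ?_
      exact (continuous_apply_apply n x).sub continuous_const
    have h1 : Ψ h ∈ closure (Ψ '' (ρ '' B)) := image_closure_subset_closure_image hΨ ⟨h, hh, rfl⟩
    have h2 : Ψ h = o.1 := by
      funext x
      simp [Ψ, o, wsum_zero]
    have h3 : Ψ '' (ρ '' B) = Subtype.val '' (Φ '' B) := by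
      rw [image_image, image_image]
    rw [h2, h3] at h1
    exact (Topology.IsInducing.subtypeVal.closure_eq_preimage_closure_image (Φ '' B)).symm ▸ h1
  obtain ⟨E, hEB, hEinf, hE⟩ := exists_convergent hX (hB.image hΦ) ho' ho
  obtain ⟨E', hE'B, hE'⟩ := exists_subset_bijOn (B ∩ Φ ⁻¹' E) Φ
  have himg : Φ '' (B ∩ Φ ⁻¹' E) = E := by
    ext w
    constructor
    · rintro ⟨a, ⟨_, ha⟩, rfl⟩
      exact ha
    · intro hw
      obtain ⟨a, ha, rfl⟩ := hEB hw
      exact ⟨a, ⟨ha, hw⟩, rfl⟩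
  rw [himg] at hE'
  have hinf' : E'.Infinite := by
    intro hf
    exact hEinf (hE'.image_eq ▸ hf.image Φ)
  obtain ⟨t, ht⟩ := hB E' (hE'B.trans inter_subset_left) hinf'
  have htB : t ∈ closure B := by
    rw [mem_closure_iff_nhds]
    intro U hU
    obtain ⟨y, ⟨hy1, hy2⟩, _⟩ := accPt_principal_iff.1 ht U hU
    exact ⟨y, hy1, (hE'B hy2).1⟩
  refine ⟨t, htB, hΦ0 t ?_⟩
  by_contra hne
  obtain ⟨U, V, hU, hV, hUo, hVt, hdisj⟩ := t2_separation (Ne.symm hne)
  have h1 := infinite_of_accPt ht (hΦ.continuousAt (hV.mem_nhds hVt))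
  have h2 : (Φ '' (Φ ⁻¹' V ∩ E')).Infinite := h1.image (hE'.injOn.mono inter_subset_right)
  refine h2 ((hE U (hU.mem_nhds hUo)).subset ?_)
  rintro _ ⟨e, ⟨heV, heE⟩, rfl⟩
  exact ⟨hE'.mapsTo heE, fun h => (Set.disjoint_left.1 hdisj) h heV⟩

/-- If `X` is a Grothendieck space then every regular space which admits a continuous injection
into `C_p(X)^ℕ` is a g-space. -/
theorem isGSpace_of_injection (hX : IsGrothendieckSpace X) [T3Space T] {ρ : T → ℕ → X → ℝ}
    (hρX : ∀ t n, Continuous (ρ t n)) (hρ : Continuous ρ) (hinj : Function.Injective ρ) :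
    IsGSpace T := by
  intro A hA
  obtain ⟨Q, hQ, hAQ, _⟩ := exists_compact_superset hX hρX hρ hA
  rw [isCompact_iff_ultrafilter_le_nhds]
  intro 𝓤 h𝓤
  have hC : closure A ∈ 𝓤 := le_principal_iff.1 h𝓤
  have hCQ : closure A ⊆ ρ ⁻¹' Q :=
    closure_minimal (image_subset_iff.1 hAQ) (hQ.isClosed.preimage hρ)
  have hQ𝓤 : (𝓤.map ρ : Filter (ℕ → X → ℝ)) ≤ 𝓟 Q := by
    rw [le_principal_iff]
    show ρ ⁻¹' Q ∈ (𝓤 : Filter T)
    exact mem_of_superset hC hCQ
  obtain ⟨h, _, hh⟩ := isCompact_iff_ultrafilter_le_nhds.1 hQ (𝓤.map ρ) hQ𝓤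
  have key : ∀ O : Set T, IsOpen O → O ∈ 𝓤 → ∃ c ∈ closure (A ∩ O), ρ c = h := by
    intro O hO hO𝓤
    refine exists_preimage hX hρX hρ (hA.mono inter_subset_left) ?_
    rw [mem_closure_iff]
    intro G hG hhG
    have h1 : ρ ⁻¹' G ∈ 𝓤 := hh (hG.mem_nhds hhG)
    obtain ⟨t, ⟨ht1, ht2⟩, ht3⟩ := 𝓤.nonempty_of_mem (inter_mem (inter_mem h1 hO𝓤) hC)
    obtain ⟨a, ⟨ha1, ha2⟩, ha3⟩ := mem_closure_iff.1 ht3 _ ((hG.preimage hρ).inter hO) ⟨ht1, ht2⟩
    exact ⟨ρ a, ha1, a, ⟨ha3, ha2⟩, rfl⟩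
  obtain ⟨c, hc, hρc⟩ := key univ isOpen_univ univ_mem
  refine ⟨c, closure_mono inter_subset_left hc, ?_⟩
  intro V hV
  by_contra hV𝓤
  have hVc : Vᶜ ∈ 𝓤 := Ultrafilter.compl_mem_iff_notMem.2 hV𝓤
  obtain ⟨V', ⟨hV'1, hV'2⟩, hV'3⟩ := (closed_nhds_basis c).mem_iff.1 hV
  have hO𝓤 : V'ᶜ ∈ 𝓤 := mem_of_superset hVc (compl_subset_compl.2 hV'3)
  obtain ⟨c', hc', hρc'⟩ := key V'ᶜ hV'2.isOpen_compl hO𝓤
  have hcc : c' = c := hinj (hρc'.trans hρc.symm)
  subst hcc
  have h2 : c' ∈ closure V'ᶜ := closure_mono inter_subset_right hc'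
  rw [closure_compl] at h2
  exact h2 (mem_interior_iff_mem_nhds.2 hV'1)

end Key

/-- **Answer to Arhangel'skii's question (Q1), in a stronger form.**  If `X` is a Grothendieck
space and `Y` is a separable space (in particular, if `Y` is countable), then `X × Y` is a
Grothendieck space. -/
theorem prod_isGrothendieckSpace {X : Type u} {Y : Type v} [TopologicalSpace X] [T35Space X]
    [TopologicalSpace Y] [T35Space Y] [TopologicalSpace.SeparableSpace Y] (hX : IsGrothendieckSpace X) :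
    IsGrothendieckSpace (X × Y) := by
  intro S
  rcases isEmpty_or_nonempty Y with hY | hY
  · refine isGSpace_of_injection hX (ρ := fun _ _ _ => 0) (fun _ _ => continuous_const)
      continuous_const ?_
    intro f g _
    apply Subtype.ext
    apply Subtype.ext
    funext p
    exact (hY.false p.2).elim
  · refine isGSpace_of_injection hX (ρ := fun f n x => f.1.1 (x, TopologicalSpace.denseSeq Y n)) ?_ ?_ ?_
    · intro f n
      exact f.1.2.comp (Continuous.prodMk_left _)
    · rw [continuous_pi_iff]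
      intro n
      rw [continuous_pi_iff]
      intro x
      exact (continuous_eval (x, TopologicalSpace.denseSeq Y n)).comp continuous_subtype_val
    · intro f g hfg
      apply Subtype.ext
      apply Subtype.ext
      funext ⟨x, y⟩
      have h1 : (fun y => f.1.1 (x, y)) = fun y => g.1.1 (x, y) := by
        refine Continuous.ext_on (TopologicalSpace.denseRange_denseSeq Y) (f.1.2.comp (Continuous.prodMk_right x))
          (g.1.2.comp (Continuous.prodMk_right x)) ?_
        rintro _ ⟨n, rfl⟩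
        exact congrFun (congrFun hfg n) x
      exact congrFun h1 y

end Pool.Agent.Work.MP_0f8365_gt
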